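import Mathlib
import Pool.Agent.V11200.DistTable

/-!
An arc-transitive group of automorphisms of the Heawood graph with an irreducible subspace that is
not contained in an eigenspace.
-/

namespace Pool.Agent.Results.MP_63f2bb_co.ArcTransIrreducible

open Finset

variable {V : Type*}

/-- `S` is a group of automorphisms of `G` acting transitively on the arcs of `G`. -/
def ArcTransitive (G : SimpleGraph V) (S : Subgroup (Equiv.Perm V)) : Prop :=
  (∀ σ ∈ S, ∀ x y, G.Adj (σ x) (σ y) ↔ G.Adj x y) ∧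
    ∀ x y x' y', G.Adj x y → G.Adj x' y' → ∃ σ ∈ S, σ x = x' ∧ σ y = y'

/-- The subspace `W` is `S`-invariant, where `(σ f)(σ v) = f v`. -/
def Invariant (S : Subgroup (Equiv.Perm V)) (W : Submodule ℝ (V → ℝ)) : Prop :=
  ∀ σ ∈ S, ∀ f ∈ W, (fun v => f (σ⁻¹ v)) ∈ W

/-- `W` is a nonzero invariant subspace that contains no invariant subspace besides `0`, `W`. -/
def IrreducibleSubspace (S : Subgroup (Equiv.Perm V)) (W : Submodule ℝ (V → ℝ)) : Prop :=
  W ≠ ⊥ ∧ Invariant S W ∧ ∀ U : Submodule ℝ (V → ℝ), U ≤ W → Invariant S U → U = ⊥ ∨ U = W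

open Classical in
/-- The adjacency operator. -/
noncomputable def adjOp [Fintype V] (G : SimpleGraph V) (f : V → ℝ) (v : V) : ℝ :=
  ∑ w, if G.Adj v w then f w else 0

/-- `W` is contained in a single eigenspace of the adjacency matrix of `G`. -/
def InEigenspace [Fintype V] (G : SimpleGraph V) (W : Submodule ℝ (V → ℝ)) : Prop :=
  ∃ μ : ℝ, ∀ f ∈ W, ∀ v, adjOp G f v = μ * f v

/-- the difference set `{1, 2, 4}` modulo 7 -/
def inD (x : ZMod 7) : Prop := x = 1 ∨ x = 2 ∨ x = 4

instance : DecidablePred inD := fun x => inferInstanceAs (Decidable (x = 1 ∨ x = 2 ∨ x = 4))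

/-- adjacency of the Heawood graph -/
def adj (x y : ZMod 7 × ZMod 2) : Prop :=
  (x.2 = 0 ∧ y.2 = 1 ∧ inD (x.1 - y.1)) ∨ (x.2 = 1 ∧ y.2 = 0 ∧ inD (y.1 - x.1))

instance : DecidableRel adj := fun x y => inferInstanceAs (Decidable
  ((x.2 = 0 ∧ y.2 = 1 ∧ inD (x.1 - y.1)) ∨ (x.2 = 1 ∧ y.2 = 0 ∧ inD (y.1 - x.1))))

/-- The Heawood graph. -/
def G : SimpleGraph (ZMod 7 × ZMod 2) where
  Adj := adj
  symm := by
    constructor
    intro x y h
    rcases h with ⟨h1, h2, h3⟩ | ⟨h1, h2, h3⟩
    · exact Or.inr ⟨h2, h1, h3⟩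
    · exact Or.inl ⟨h2, h1, h3⟩
  loopless := by
    constructor
    intro x h
    rcases h with ⟨h1, h2, _⟩ | ⟨h1, h2, _⟩
    · rw [h1] at h2; exact absurd h2 (by decide)
    · rw [h1] at h2; exact absurd h2 (by decide)

instance : DecidableRel G.Adj := inferInstanceAs (DecidableRel adj)

/-- The distance of the Heawood graph. -/
def del (x y : ZMod 7 × ZMod 2) : ℕ :=
  if x = y then 0 else if x.2 = y.2 then 2 else if adj x y then 1 else 3

theorem G_connected : G.Connected := by
  refine (Pool.Agent.V11200.dist_eq_table G del ?_ ?_ ?_).1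
  · decide +kernel
  · decide +kernel
  · decide +kernel

theorem perm_inv {α : Type*} (σ : Equiv.Perm α) (x : α) : σ (σ⁻¹ x) = x := σ.apply_symm_apply x

/-- The group: automorphisms that preserve the partition into pairs `{(i, 0), (i, 1)}`. -/
def S : Subgroup (Equiv.Perm (ZMod 7 × ZMod 2)) where
  carrier := {σ | (∀ x y, G.Adj (σ x) (σ y) ↔ G.Adj x y) ∧ ∀ x y, (σ x).1 = (σ y).1 ↔ x.1 = y.1}
  mul_mem' := by
    rintro σ τ ⟨h1, h2⟩ ⟨h3, h4⟩
    refine ⟨fun x y => ?_, fun x y => ?_⟩
    · rw [Equiv.Perm.mul_apply, Equiv.Perm.mul_apply, h1, h3]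
    · rw [Equiv.Perm.mul_apply, Equiv.Perm.mul_apply, h2, h4]
  one_mem' := ⟨fun x y => Iff.rfl, fun x y => Iff.rfl⟩
  inv_mem' := by
    rintro σ ⟨h1, h2⟩
    refine ⟨fun x y => ?_, fun x y => ?_⟩
    · rw [← h1, perm_inv, perm_inv]
    · rw [← h2, perm_inv, perm_inv]

/-- swap the two parts for non-squares -/
def chi (a : ZMod 7) : ZMod 2 := if inD a then 0 else 1

/-- The affine maps `(i, s) ↦ (a i + b, s + χ(a))`. -/
def aff (a b : ZMod 7) (ha : a ≠ 0) : Equiv.Perm (ZMod 7 × ZMod 2) where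
  toFun x := (a * x.1 + b, x.2 + chi a)
  invFun x := (a⁻¹ * (x.1 - b), x.2 - chi a)
  left_inv x := by
    have : Fact (Nat.Prime 7) := ⟨by norm_num⟩
    ext
    · simp [ha]
    · simp
  right_inv x := by
    have : Fact (Nat.Prime 7) := ⟨by norm_num⟩
    ext
    · simp [ha]
    · simp

theorem aff_adj : ∀ a b : ZMod 7, a ≠ 0 → ∀ x y : ZMod 7 × ZMod 2,
    adj (a * x.1 + b, x.2 + chi a) (a * y.1 + b, y.2 + chi a) ↔ adj x y := by decide +kernel

theorem arc_from_base : ∀ x y : ZMod 7 × ZMod 2, adj x y → ∃ a b : ZMod 7, a ≠ 0 ∧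
    (a * 1 + b, 0 + chi a) = x ∧ (a * 0 + b, 1 + chi a) = y := by decide +kernel

theorem aff_mem (a b : ZMod 7) (ha : a ≠ 0) : aff a b ha ∈ S := by
  have : Fact (Nat.Prime 7) := ⟨by norm_num⟩
  refine ⟨?_, ?_⟩
  · exact aff_adj a b ha
  · intro x y
    change a * x.1 + b = a * y.1 + b ↔ x.1 = y.1
    rw [add_left_inj]
    exact mul_right_inj' ha

theorem S_arc : ArcTransitive G S := by
  refine ⟨fun σ hσ => hσ.1, ?_⟩
  intro x y x' y' hxy hxy'
  obtain ⟨a, b, ha, h1, h2⟩ := arc_from_base x y hxy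
  obtain ⟨a', b', ha', h1', h2'⟩ := arc_from_base x' y' hxy'
  refine ⟨aff a' b' ha' * (aff a b ha)⁻¹, S.mul_mem (aff_mem a' b' ha')
    (S.inv_mem (aff_mem a b ha)), ?_, ?_⟩
  · have e : (aff a b ha)⁻¹ x = (1, 0) := by
      rw [Equiv.Perm.inv_eq_iff_eq]
      exact h1.symm
    rw [Equiv.Perm.mul_apply, e]
    exact h1'
  · have e : (aff a b ha)⁻¹ y = (0, 1) := by
      rw [Equiv.Perm.inv_eq_iff_eq]
      exact h2.symm
    rw [Equiv.Perm.mul_apply, e]
    exact h2'

/-- Functions that are constant on the pairs `{(i, 0), (i, 1)}` and have zero sum. -/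
def W : Submodule ℝ (ZMod 7 × ZMod 2 → ℝ) where
  carrier := {f | (∀ x y, x.1 = y.1 → f x = f y) ∧ ∑ x, f x = 0}
  add_mem' := by
    rintro f g ⟨h1, h2⟩ ⟨h3, h4⟩
    refine ⟨fun x y hxy => ?_, ?_⟩
    · simp only [Pi.add_apply, h1 x y hxy, h3 x y hxy]
    · simp only [Pi.add_apply, sum_add_distrib, h2, h4, add_zero]
  zero_mem' := ⟨fun x y _ => rfl, by simp⟩
  smul_mem' := by
    rintro c f ⟨h1, h2⟩
    refine ⟨fun x y hxy => ?_, ?_⟩
    · simp only [Pi.smul_apply, h1 x y hxy]
    · simp only [Pi.smul_apply, smul_eq_mul, ← mul_sum, h2, mul_zero]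

theorem W_inv : Invariant S W := by
  rintro σ ⟨h1, h2⟩ f ⟨h3, h4⟩
  refine ⟨fun x y hxy => ?_, ?_⟩
  · apply h3
    rw [← h2, perm_inv, perm_inv]
    exact hxy
  · rw [← h4]
    exact Equiv.sum_comp σ⁻¹ f

/-- the function with values `6 c` on the pair of `j` and `-c` elsewhere -/
def peak (c : ℝ) (j : ZMod 7) (x : ZMod 7 × ZMod 2) : ℝ := if x.1 = j then 6 * c else -c

theorem mem_comp {U : Submodule ℝ (ZMod 7 × ZMod 2 → ℝ)} (hU : Invariant S U)
    {f : ZMod 7 × ZMod 2 → ℝ} (hf : f ∈ U) (a b : ZMod 7) (ha : a ≠ 0) :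
    (fun x => f (a * x.1 + b, x.2 + chi a)) ∈ U := by
  have h := hU (aff a b ha)⁻¹ (S.inv_mem (aff_mem a b ha)) f hf
  rw [inv_inv] at h
  exact h

theorem W_irr : IrreducibleSubspace S W := by
  have : Fact (Nat.Prime 7) := ⟨by norm_num⟩
  refine ⟨?_, W_inv, ?_⟩
  · intro h
    have h1 : peak 1 0 ∈ W := by
      refine ⟨fun x y hxy => ?_, ?_⟩
      · simp only [peak, hxy]
      · rw [Fintype.sum_prod_type]
        simp only [peak]
        simp [Finset.sum_ite, Finset.filter_eq', Finset.filter_ne']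
        norm_num
    rw [h, Submodule.mem_bot] at h1
    have h2 := congrFun h1 (0, 0)
    simp [peak] at h2
  · intro U hUW hU
    by_cases hbot : U = ⊥
    · exact Or.inl hbot
    right
    refine le_antisymm hUW ?_
    obtain ⟨f, hf, hf0⟩ := (Submodule.ne_bot_iff U).1 hbot
    obtain ⟨hf1, hf2⟩ := hUW hf
    obtain ⟨x0, hx0⟩ : ∃ x, f x ≠ 0 := by
      by_contra h
      push Not at h
      exact hf0 (funext h)
    let g : ZMod 7 → ℝ := fun i => f (i, 0)
    have hfg : ∀ x, f x = g x.1 := fun x => hf1 x (x.1, 0) rfl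
    have hg0 : ∑ i, g i = 0 := by
      rw [Fintype.sum_prod_type] at hf2
      have h1 : ∀ i : ZMod 7, ∑ s : ZMod 2, f (i, s) = 2 * g i := by
        intro i
        simp only [hfg]
        rw [sum_const, card_univ, ZMod.card]
        simp
      simp only [h1, ← mul_sum] at hf2
      linarith
    set i0 := x0.1 with hi0
    have hgi0 : g i0 ≠ 0 := by rw [← hfg]; exact hx0
    -- the average over the stabiliser of `i0`
    have havg : ∀ j : ZMod 7, peak (g i0) j ∈ U := by
      intro j
      have h1 : (∑ a : {a : ZMod 7 // a ≠ 0}, fun x : ZMod 7 × ZMod 2 =>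
          f (a.1 * x.1 + (i0 - a.1 * j), x.2 + chi a.1)) ∈ U := by
        refine Submodule.sum_mem _ fun a _ => ?_
        exact mem_comp hU hf a.1 _ a.2
      have h2 : (∑ a : {a : ZMod 7 // a ≠ 0}, fun x : ZMod 7 × ZMod 2 =>
          f (a.1 * x.1 + (i0 - a.1 * j), x.2 + chi a.1)) = peak (g i0) j := by
        funext x
        rw [Finset.sum_apply]
        simp only [hfg, peak]
        have h3 : ∑ a : {a : ZMod 7 // a ≠ 0}, g (a.1 * x.1 + (i0 - a.1 * j)) =
            ∑ a ∈ univ.erase (0 : ZMod 7), g (i0 + a * (x.1 - j)) := by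
          rw [Finset.sum_subtype (univ.erase (0 : ZMod 7)) (p := fun a => a ≠ 0)
            (by intro a; simp) (fun a => g (i0 + a * (x.1 - j)))]
          refine sum_congr rfl fun a _ => ?_
          congr 1
          ring
        rw [h3]
        by_cases hxj : x.1 = j
        · rw [if_pos hxj, hxj]
          simp only [sub_self, mul_zero, add_zero]
          rw [sum_const, card_erase_of_mem (mem_univ _), card_univ, ZMod.card]
          simp
        · rw [if_neg hxj]
          have hne : x.1 - j ≠ 0 := sub_ne_zero.2 hxj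
          have h4 : ∑ a : ZMod 7, g (i0 + a * (x.1 - j)) = ∑ i, g i := by
            refine Fintype.sum_bijective (fun a : ZMod 7 => i0 + a * (x.1 - j)) ?_ _ _ ?_
            · refine (Finite.injective_iff_bijective).1 ?_
              intro a b hab
              simp only [add_right_inj] at hab
              exact mul_right_cancel₀ hne hab
            · intro a; rfl
          have h5 := Finset.add_sum_erase univ (fun a : ZMod 7 => g (i0 + a * (x.1 - j)))
            (mem_univ 0)
          rw [h4, hg0] at h5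
          simp only [zero_mul, add_zero] at h5
          linarith
      rw [← h2]; exact h1
    -- they span `W`
    intro h hh
    obtain ⟨hh1, hh2⟩ := hh
    let k : ZMod 7 → ℝ := fun i => h (i, 0)
    have hhk : ∀ x, h x = k x.1 := fun x => hh1 x (x.1, 0) rfl
    have hk0 : ∑ i, k i = 0 := by
      rw [Fintype.sum_prod_type] at hh2
      have h1 : ∀ i : ZMod 7, ∑ s : ZMod 2, h (i, s) = 2 * k i := by
        intro i
        simp only [hhk]
        rw [sum_const, card_univ, ZMod.card]
        simp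
      simp only [h1, ← mul_sum] at hh2
      linarith
    have hspan : h = ∑ j, (k j / (7 * g i0)) • peak (g i0) j := by
      funext x
      rw [Finset.sum_apply, hhk]
      simp only [Pi.smul_apply, smul_eq_mul, peak]
      have h1 : ∀ j : ZMod 7, k j / (7 * g i0) * (if x.1 = j then 6 * g i0 else -g i0) =
          (if x.1 = j then k j else 0) - k j / 7 := by
        intro j
        split_ifs
        · field_simp; ring
        · field_simp; ring
      simp only [h1, sum_sub_distrib, ← sum_div, hk0]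
      simp
    rw [hspan]
    exact Submodule.sum_mem _ fun j _ => Submodule.smul_mem _ _ (havg j)

/-- test function -/
def tst (i : ZMod 7) : ℝ := (if i = 0 then 1 else 0) - (if i = 1 then 1 else 0)

theorem nb4 : ∀ w : ZMod 7 × ZMod 2, G.Adj (4, 0) w ↔ (w = (3, 1) ∨ w = (2, 1) ∨ w = (0, 1)) := by
  decide

theorem W_not : ¬ InEigenspace G W := by
  rintro ⟨μ, hμ⟩
  have hf : (fun x : ZMod 7 × ZMod 2 => tst x.1) ∈ W := by
    refine ⟨fun x y hxy => ?_, ?_⟩
    · simp only [hxy]
    · rw [Fintype.sum_prod_type]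
      simp only [sum_const]
      rw [← Finset.smul_sum]
      simp only [tst, sum_sub_distrib, sum_ite_eq', mem_univ, if_true]
      simp
  have h := hμ _ hf (4, 0)
  have t0 : tst 0 = 1 := by
    simp only [tst]; rw [if_neg (show ¬ (0 : ZMod 7) = 1 by decide)]; simp
  have t2 : tst 2 = 0 := by
    simp only [tst]; rw [if_neg (by decide), if_neg (by decide)]; norm_num
  have t3 : tst 3 = 0 := by
    simp only [tst]; rw [if_neg (by decide), if_neg (by decide)]; norm_num
  have t4 : tst 4 = 0 := by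
    simp only [tst]; rw [if_neg (by decide), if_neg (by decide)]; norm_num
  have h1 : adjOp G (fun x : ZMod 7 × ZMod 2 => tst x.1) (4, 0) = tst 3 + tst 2 + tst 0 := by
    have h0 : adjOp G (fun x : ZMod 7 × ZMod 2 => tst x.1) (4, 0) =
        ∑ w : ZMod 7 × ZMod 2, if (w = (3, 1) ∨ w = (2, 1) ∨ w = (0, 1)) then tst w.1 else 0 := by
      unfold adjOp
      refine sum_congr rfl fun w _ => ?_
      by_cases hw : G.Adj (4, 0) w
      · rw [if_pos hw, if_pos ((nb4 w).1 hw)]
      · rw [if_neg hw, if_neg (fun e => hw ((nb4 w).2 e))]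
    have h2 : univ.filter (fun w : ZMod 7 × ZMod 2 => (w = (3, 1) ∨ w = (2, 1) ∨ w = (0, 1))) =
        {(3, 1), (2, 1), (0, 1)} := by
      ext w
      simp only [mem_filter, mem_univ, true_and, mem_insert, mem_singleton]
    rw [h0, ← Finset.sum_filter, h2, sum_insert (by decide), sum_insert (by decide), sum_singleton]
    ring
  rw [h1] at h
  simp only [t0, t2, t3, t4] at h
  norm_num at h

/-- **Main theorem.** There are a finite connected simple graph `G`, an arc-transitive group `S` of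
automorphisms of `G` and an `S`-irreducible subspace of the real vector space of functions on the
vertices that lies in no eigenspace of the adjacency matrix of `G`. -/
theorem result : ∃ (V : Type) (_ : Fintype V) (G : SimpleGraph V) (S : Subgroup (Equiv.Perm V))
    (W : Submodule ℝ (V → ℝ)), G.Connected ∧ ArcTransitive G S ∧ IrreducibleSubspace S W ∧
      ¬ InEigenspace G W :=
  ⟨ZMod 7 × ZMod 2, inferInstance, G, S, W, G_connected, S_arc, W_irr, W_not⟩

end Pool.Agent.Results.MP_63f2bb_co.ArcTransIrreducible
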